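import Mathlib

set_option autoImplicit false

/-!
Co-sober spaces: definitions.
-/

universe u

namespace Q178.CoSober

/-- A set is saturated if it is an intersection of open sets. -/
def Saturated {X : Type u} [TopologicalSpace X] (A : Set X) : Prop :=
  ∃ 𝒰 : Set (Set X), (∀ U ∈ 𝒰, IsOpen U) ∧ A = ⋂₀ 𝒰

/-- The nonempty compact saturated sets. -/
structure IsK {X : Type u} [TopologicalSpace X] (K : Set X) : Prop where
  nonempty : K.Nonempty
  compact : IsCompact K
  saturated : Saturated K

/-- A nonempty compact saturated set is k-irreducible if it is not the union of two proper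
nonempty compact saturated subsets. -/
structure KIrreducible {X : Type u} [TopologicalSpace X] (G : Set X) : Prop where
  isK : IsK G
  irred : ∀ K₁ K₂ : Set X, IsK K₁ → IsK K₂ → G = K₁ ∪ K₂ → G = K₁ ∨ G = K₂

/-- The set of points above `k` in the specialization order (`k` lies in the closure of
`{y}`). -/
def up {X : Type u} [TopologicalSpace X] (k : X) : Set X :=
  {y | k ∈ closure ({y} : Set X)}

/-- A co-sober space: a T0 space in which every k-irreducible set is `up k` for some point
`k`. -/
structure IsCoSober (X : Type u) [TopologicalSpace X] : Prop where
  t0 : T0Space X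
  cosober : ∀ G : Set X, KIrreducible G → ∃ k, G = up k

end Q178.CoSober
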