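import Pool.Agent.Q178.CoSober.Defs

set_option autoImplicit false

/-!
A compact T1 space with more than one point, in which all compact sets are closed and any two
nonempty open sets meet.
-/

universe u

namespace Q178.CoSober

open Set Filter Topology

/-! ### The Cantor tree -/

/-- The node of the Cantor tree at level `m` below the branch `x`. -/
def res (x : ℕ → Bool) (m : ℕ) : List Bool := (List.range m).map x

lemma length_res (x : ℕ → Bool) (m : ℕ) : (res x m).length = m := by simp [res]

lemma res_eq_iff {x y : ℕ → Bool} {m : ℕ} : res x m = res y m ↔ ∀ i < m, x i = y i := by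
  simp [res]

/-- The countable dense set of branches. -/
def P : Set (ℕ → Bool) := range fun (F : Finset ℕ) (n : ℕ) => decide (n ∈ F)

lemma countable_P : P.Countable := countable_range _

/-- Cylinder sets. -/
def cyl (y : ℕ → Bool) (m : ℕ) : Set (ℕ → Bool) := {x | ∀ i < m, x i = y i}

lemma isOpen_cyl (y : ℕ → Bool) (m : ℕ) : IsOpen (cyl y m) := by
  have : cyl y m = ⋂ i ∈ Iio m, (fun x : ℕ → Bool => x i) ⁻¹' {y i} := by
    ext x
    simp [cyl]
  rw [this]
  exact (finite_Iio m).isOpen_biInter fun i _ => (isOpen_discrete _).preimage (continuous_apply i)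

lemma exists_cyl {y : ℕ → Bool} {O : Set (ℕ → Bool)} (hO : IsOpen O) (hy : y ∈ O) :
    ∃ k, cyl y k ⊆ O := by
  obtain ⟨F, W, hW, hWO⟩ := isOpen_pi_iff.1 hO y hy
  refine ⟨F.sup id + 1, fun v hv => hWO ?_⟩
  intro j hj
  rw [hv j (Nat.lt_succ_of_le (Finset.le_sup (f := id) hj))]
  exact (hW j hj).2

lemma infinite_P_inter {O : Set (ℕ → Bool)} (hO : IsOpen O) (hne : O.Nonempty) :
    (P ∩ O).Infinite := by
  classical
  obtain ⟨y, hy⟩ := hne
  obtain ⟨m, hm⟩ := exists_cyl hO hy
  let f : ℕ → ℕ → Bool := fun k n =>
    decide (n ∈ ((Finset.range m).filter fun i => y i = true) ∪ {m + k})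
  have hf : ∀ k n, f k n = true ↔ (n < m ∧ y n = true) ∨ n = m + k := by
    intro k n
    simp only [f, decide_eq_true_eq, Finset.mem_union, Finset.mem_filter, Finset.mem_range,
      Finset.mem_singleton]
  apply infinite_of_injective_forall_mem (f := f)
  · intro k k' h
    have h1 : f k (m + k) = true := (hf _ _).2 (Or.inr rfl)
    rw [h] at h1
    rcases (hf _ _).1 h1 with h2 | h2
    · omega
    · omega
  · intro k
    refine ⟨⟨_, rfl⟩, hm ?_⟩
    intro i hi
    have h1 : f k i = true ↔ y i = true := by
      rw [hf]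
      constructor
      · rintro (h | h)
        · exact h.2
        · omega
      · exact fun h => Or.inl ⟨hi, h⟩
    cases h2 : f k i <;> cases h3 : y i <;> simp_all

lemma isOpen_res (m : ℕ) (T : Set (List Bool)) : IsOpen {x : ℕ → Bool | res x m ∈ T} := by
  rw [isOpen_iff_forall_mem_open]
  intro x hx
  refine ⟨cyl x m, fun y hy => ?_, isOpen_cyl x m, fun i _ => rfl⟩
  have : res y m = res x m := res_eq_iff.2 hy
  rw [mem_ofPred_eq, this]
  exact hx

/-- The basic combinatorial fact, proved with the Baire category theorem. -/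
lemma exists_common_node (A B : Set (List Bool)) {E F : Set (ℕ → Bool)} (hE : E.Finite)
    (hF : F.Finite) (hA : ∀ x ∈ P, x ∉ E → ∀ᶠ m in atTop, res x m ∈ A)
    (hB : ∀ x, x ∉ P → x ∉ F → ∀ᶠ m in atTop, res x m ∈ B) : ∃ s, s ∈ A ∧ s ∈ B := by
  classical
  let S : Set (ℕ → Bool) := P ∪ F
  have hS : S.Countable := countable_P.union hF.countable
  have : Countable S := hS.to_subtype
  let f : ℕ ⊕ S → Set (ℕ → Bool) := fun i => match i with
    | Sum.inl n => ⋂ m ∈ Ici n, {x | res x m ∈ B}
    | Sum.inr x => {(x : ℕ → Bool)}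
  obtain ⟨i, hi⟩ := nonempty_interior_of_iUnion_of_closed (f := f) (by
      rintro (n | x)
      · apply isClosed_biInter
        intro m _
        rw [← isOpen_compl_iff]
        exact isOpen_res m Bᶜ
      · exact isClosed_singleton) (by
      rw [eq_univ_iff_forall]
      intro x
      by_cases hx : x ∈ S
      · exact mem_iUnion.2 ⟨Sum.inr ⟨x, hx⟩, rfl⟩
      · have h1 := hB x (fun h => hx (Or.inl h)) (fun h => hx (Or.inr h))
        obtain ⟨n, hn⟩ := eventually_atTop.1 h1
        exact mem_iUnion.2 ⟨Sum.inl n, mem_iInter₂.2 fun m hm => hn m hm⟩)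
  have hinf := infinite_P_inter isOpen_interior hi
  rcases i with n | x
  · obtain ⟨x, ⟨hxP, hxI⟩, hxE⟩ := hinf.exists_notMem_finite hE
    obtain ⟨m, hm, hmn⟩ := ((hA x hxP hxE).and (eventually_ge_atTop n)).exists
    exact ⟨res x m, hm, mem_iInter₂.1 (interior_subset hxI) m hmn⟩
  · exfalso
    apply hinf
    exact (finite_singleton (x : ℕ → Bool)).subset (inter_subset_right.trans interior_subset)

/-! ### The space -/

/-- The points of the space: a base point, and for every pair of points `z, z'` the nodes
`t z z' s` and the branches `b z z' x` of a Cantor tree. -/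
inductive X : Type
  | o : X
  | t : X → X → List Bool → X
  | b : X → X → (ℕ → Bool) → X

/-- Open sets: nodes converge to their branches, the branches in `P` converge to `z`, and the
other branches converge to `z'`. -/
structure OpenX (U : Set X) : Prop where
  node : ∀ z z' x, X.b z z' x ∈ U → ∀ᶠ m in atTop, X.t z z' (res x m) ∈ U
  left : ∀ z z', z ∈ U → {x | x ∈ P ∧ X.b z z' x ∉ U}.Finite
  right : ∀ z z', z' ∈ U → {x | x ∉ P ∧ X.b z z' x ∉ U}.Finite

instance : TopologicalSpace X where
  IsOpen := OpenX
  isOpen_univ := ⟨fun _ _ _ _ => Eventually.of_forall fun _ => trivial,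
    fun _ _ _ => by simp, fun _ _ _ => by simp⟩
  isOpen_inter := by
    intro U V hU hV
    refine ⟨fun z z' x h => (hU.node z z' x h.1).and (hV.node z z' x h.2), fun z z' h => ?_,
      fun z z' h => ?_⟩
    · refine ((hU.left z z' h.1).union (hV.left z z' h.2)).subset ?_
      rintro x ⟨hx, hxn⟩
      by_cases h1 : X.b z z' x ∈ U
      · exact Or.inr ⟨hx, fun h2 => hxn ⟨h1, h2⟩⟩
      · exact Or.inl ⟨hx, h1⟩
    · refine ((hU.right z z' h.1).union (hV.right z z' h.2)).subset ?_
      rintro x ⟨hx, hxn⟩
      by_cases h1 : X.b z z' x ∈ U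
      · exact Or.inr ⟨hx, fun h2 => hxn ⟨h1, h2⟩⟩
      · exact Or.inl ⟨hx, h1⟩
  isOpen_sUnion := by
    intro S hS
    refine ⟨?_, ?_, ?_⟩
    · rintro z z' x ⟨U, hU, h⟩
      filter_upwards [(hS U hU).node z z' x h] with m hm
      exact ⟨U, hU, hm⟩
    · rintro z z' ⟨U, hU, h⟩
      refine ((hS U hU).left z z' h).subset ?_
      rintro x ⟨hx, hxn⟩
      exact ⟨hx, fun h2 => hxn ⟨U, hU, h2⟩⟩
    · rintro z z' ⟨U, hU, h⟩
      refine ((hS U hU).right z z' h).subset ?_
      rintro x ⟨hx, hxn⟩
      exact ⟨hx, fun h2 => hxn ⟨U, hU, h2⟩⟩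

lemma isOpen_iff {U : Set X} : IsOpen U ↔ OpenX U := Iff.rfl

/-- Any two nonempty open sets meet. -/
lemma inter_nonempty {U V : Set X} (hU : IsOpen U) (hV : IsOpen V) (hUn : U.Nonempty)
    (hVn : V.Nonempty) : (U ∩ V).Nonempty := by
  obtain ⟨z, hz⟩ := hUn
  obtain ⟨z', hz'⟩ := hVn
  rw [isOpen_iff] at hU hV
  obtain ⟨s, h1, h2⟩ := exists_common_node {s | X.t z z' s ∈ U} {s | X.t z z' s ∈ V}
    (hU.left z z' hz) (hV.right z z' hz') (fun x hx hxE => by
      apply hU.node
      by_contra h
      exact hxE ⟨hx, h⟩) (fun x hx hxE => by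
      apply hV.node
      by_contra h
      exact hxE ⟨hx, h⟩)
  exact ⟨_, h1, h2⟩

/-- A set is thin if it meets every node sequence and every set of branches with the same
base points in a finite set. -/
structure Thin (S : Set X) : Prop where
  node : ∀ z z' x, {m | X.t z z' (res x m) ∈ S}.Finite
  branch : ∀ z z', {x | X.b z z' x ∈ S}.Finite

lemma Thin.isClosed {S : Set X} (h : Thin S) : IsClosed S := by
  rw [← isOpen_compl_iff, isOpen_iff]
  refine ⟨fun z z' x _ => ?_, fun z z' _ => ?_, fun z z' _ => ?_⟩
  · have h1 := (h.node z z' x).compl_mem_cofinite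
    rw [Nat.cofinite_eq_atTop] at h1
    filter_upwards [h1] with m hm
    exact hm
  · refine (h.branch z z').subset ?_
    rintro x ⟨_, hx⟩
    exact not_notMem.1 hx
  · refine (h.branch z z').subset ?_
    rintro x ⟨_, hx⟩
    exact not_notMem.1 hx

lemma thin_singleton (p : X) : Thin {p} := by
  refine ⟨fun z z' x => ?_, fun z z' => ?_⟩
  · apply Set.Subsingleton.finite
    intro m hm m' hm'
    have h1 : X.t z z' (res x m) = p := hm
    have h2 : X.t z z' (res x m') = p := hm'
    rw [← h2] at h1
    simp only [X.t.injEq, true_and] at h1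
    rw [← length_res x m, ← length_res x m', h1]
  · apply Set.Subsingleton.finite
    intro m hm m' hm'
    have h1 : X.b z z' m = p := hm
    have h2 : X.b z z' m' = p := hm'
    rw [← h2] at h1
    simpa using h1

instance : T1Space X := ⟨fun p => (thin_singleton p).isClosed⟩

/-- A `fan` is an infinite set converging to a point: all `S' ∪ {p}` with `S' ⊆ S` are closed
and compact. -/
def Fan (S : Set X) (p : X) : Prop :=
  S.Infinite ∧ p ∉ S ∧ ∀ S' ⊆ S, IsClosed (insert p S') ∧ IsCompact (insert p S')

lemma compact_of_cofinite {S' : Set X} {p : X}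
    (h : ∀ U, IsOpen U → p ∈ U → (S' \ U).Finite) : IsCompact (insert p S') := by
  classical
  rw [isCompact_iff_finite_subcover]
  intro ι U hU hcov
  obtain ⟨i, hi⟩ := mem_iUnion.1 (hcov (mem_insert _ _))
  have hne : Nonempty ι := ⟨i⟩
  have hfin := h (U i) (hU i) hi
  have hex : ∀ x ∈ S', ∃ j, x ∈ U j := fun x hx => mem_iUnion.1 (hcov (mem_insert_of_mem _ hx))
  choose! j hj using hex
  refine ⟨insert i (hfin.toFinset.image j), ?_⟩
  intro x hx
  by_cases hxi : x ∈ U i
  · exact mem_iUnion₂.2 ⟨i, Finset.mem_insert_self _ _, hxi⟩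
  · rcases hx with rfl | hx
    · exact absurd hi hxi
    · exact mem_iUnion₂.2 ⟨j x, Finset.mem_insert_of_mem (Finset.mem_image_of_mem _
        (hfin.mem_toFinset.2 ⟨hx, hxi⟩)), hj x hx⟩

/-- A set which is not closed contains a fan whose limit is not in the set. -/
lemma exists_fan {K : Set X} (hK : ¬ IsClosed K) : ∃ S p, S ⊆ K ∧ p ∉ K ∧ Fan S p := by
  classical
  rw [← isOpen_compl_iff, isOpen_iff] at hK
  by_cases h1 : ∀ z z' x, X.b z z' x ∈ Kᶜ → ∀ᶠ m in atTop, X.t z z' (res x m) ∈ Kᶜ
  · by_cases h2 : ∀ z z', z ∈ Kᶜ → {x | x ∈ P ∧ X.b z z' x ∉ Kᶜ}.Finite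
    · have h3 : ¬ ∀ z z', z' ∈ Kᶜ → {x | x ∉ P ∧ X.b z z' x ∉ Kᶜ}.Finite := fun h3 =>
        hK ⟨h1, h2, h3⟩
      push Not at h3
      obtain ⟨z, z', hz, hinf⟩ := h3
      refine ⟨(fun x => X.b z z' x) '' {x | x ∉ P ∧ X.b z z' x ∉ Kᶜ}, z', ?_, hz, ?_, ?_, ?_⟩
      · rintro _ ⟨x, hx, rfl⟩
        exact not_notMem.1 hx.2
      · apply hinf.image
        intro x _ y _ h
        simpa using h
      · rintro ⟨x, hx, hxz⟩
        rw [← hxz] at hz
        exact hx.2 hz
      · intro S' hS'
        refine ⟨?_, compact_of_cofinite ?_⟩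
        · rw [← isOpen_compl_iff, isOpen_iff]
          have hT := (thin_singleton z').isClosed
          rw [← isOpen_compl_iff, isOpen_iff] at hT
          refine ⟨fun w w' x hx => ?_, fun w w' hw => ?_, fun w w' hw => ?_⟩
          · filter_upwards [hT.node w w' x (fun h => hx (Or.inl h))] with m hm
            rintro (h | h)
            · exact hm h
            · obtain ⟨y, _, hy⟩ := hS' h
              simp at hy
          · refine (hT.left w w' (fun h => hw (Or.inl h))).subset ?_
            rintro x ⟨hxP, hx⟩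
            refine ⟨hxP, fun hx' => hx ?_⟩
            rintro (h | h)
            · exact hx' h
            · obtain ⟨y, hy1, hy⟩ := hS' h
              simp only [X.b.injEq] at hy
              rw [hy.2.2] at hy1
              exact hy1.1 hxP
          · refine (hT.right w w' (fun h => hw (Or.inl h))).subset ?_
            rintro x ⟨hxP, hx⟩
            refine ⟨hxP, fun hx' => hx ?_⟩
            rintro (h | h)
            · exact hx' h
            · obtain ⟨y, hy1, hy⟩ := hS' h
              simp only [X.b.injEq] at hy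
              exact hw (Or.inl hy.2.1.symm)
        · intro U hU hzU
          rw [isOpen_iff] at hU
          refine ((hU.right z z' hzU).image fun x => X.b z z' x).subset ?_
          rintro s ⟨hs, hsU⟩
          obtain ⟨x, hx, rfl⟩ := hS' hs
          exact ⟨x, ⟨hx.1, hsU⟩, rfl⟩
    · push Not at h2
      obtain ⟨z, z', hz, hinf⟩ := h2
      refine ⟨(fun x => X.b z z' x) '' {x | x ∈ P ∧ X.b z z' x ∉ Kᶜ}, z, ?_, hz, ?_, ?_, ?_⟩
      · rintro _ ⟨x, hx, rfl⟩
        exact not_notMem.1 hx.2
      · apply hinf.image
        intro x _ y _ h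
        simpa using h
      · rintro ⟨x, hx, hxz⟩
        rw [← hxz] at hz
        exact hx.2 hz
      · intro S' hS'
        refine ⟨?_, compact_of_cofinite ?_⟩
        · rw [← isOpen_compl_iff, isOpen_iff]
          have hT := (thin_singleton z).isClosed
          rw [← isOpen_compl_iff, isOpen_iff] at hT
          refine ⟨fun w w' x hx => ?_, fun w w' hw => ?_, fun w w' hw => ?_⟩
          · filter_upwards [hT.node w w' x (fun h => hx (Or.inl h))] with m hm
            rintro (h | h)
            · exact hm h
            · obtain ⟨y, _, hy⟩ := hS' h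
              simp at hy
          · refine (hT.left w w' (fun h => hw (Or.inl h))).subset ?_
            rintro x ⟨hxP, hx⟩
            refine ⟨hxP, fun hx' => hx ?_⟩
            rintro (h | h)
            · exact hx' h
            · obtain ⟨y, hy1, hy⟩ := hS' h
              simp only [X.b.injEq] at hy
              exact hw (Or.inl hy.1.symm)
          · refine (hT.right w w' (fun h => hw (Or.inl h))).subset ?_
            rintro x ⟨hxP, hx⟩
            refine ⟨hxP, fun hx' => hx ?_⟩
            rintro (h | h)
            · exact hx' h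
            · obtain ⟨y, hy1, hy⟩ := hS' h
              simp only [X.b.injEq] at hy
              rw [hy.2.2] at hy1
              exact hxP hy1.1
        · intro U hU hzU
          rw [isOpen_iff] at hU
          refine ((hU.left z z' hzU).image fun x => X.b z z' x).subset ?_
          rintro s ⟨hs, hsU⟩
          obtain ⟨x, hx, rfl⟩ := hS' hs
          exact ⟨x, ⟨hx.1, hsU⟩, rfl⟩
  · push Not at h1
    obtain ⟨z, z', x, hb, hfr⟩ := h1
    have hinf : {m | X.t z z' (res x m) ∉ Kᶜ}.Infinite := by
      rw [← Nat.frequently_atTop_iff_infinite]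
      exact hfr
    refine ⟨(fun m => X.t z z' (res x m)) '' {m | X.t z z' (res x m) ∉ Kᶜ}, X.b z z' x,
      ?_, hb, ?_, ?_, ?_⟩
    · rintro _ ⟨m, hm, rfl⟩
      exact not_notMem.1 hm
    · apply hinf.image
      intro m _ m' _ h
      simp only [X.t.injEq, true_and] at h
      rw [← length_res x m, ← length_res x m', h]
    · rintro ⟨m, _, hm⟩
      simp at hm
    · intro S' hS'
      refine ⟨?_, compact_of_cofinite ?_⟩
      · rw [← isOpen_compl_iff, isOpen_iff]
        have hT := (thin_singleton (X.b z z' x)).isClosed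
        rw [← isOpen_compl_iff, isOpen_iff] at hT
        refine ⟨fun w w' y hy => ?_, fun w w' hw => ?_, fun w w' hw => ?_⟩
        · have hne : ∀ᶠ m in atTop, ¬ (w = z ∧ w' = z' ∧ res y m = res x m) := by
            by_cases hw : w = z ∧ w' = z'
            · have hyx : y ≠ x := by
                rintro rfl
                apply hy
                left
                rw [hw.1, hw.2]
              obtain ⟨i, hi⟩ := Function.ne_iff.1 hyx
              filter_upwards [eventually_gt_atTop i] with m hm h
              exact hi (res_eq_iff.1 h.2.2 i hm)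
            · exact Eventually.of_forall fun m h => hw ⟨h.1, h.2.1⟩
          filter_upwards [hT.node w w' y (fun h => hy (Or.inl h)), hne] with m hm hmne
          rintro (h | h)
          · exact hm h
          · obtain ⟨m', _, hm'⟩ := hS' h
            simp only [X.t.injEq] at hm'
            have hlen : m' = m := by
              rw [← length_res x m', ← length_res y m, hm'.2.2]
            subst hlen
            exact hmne ⟨hm'.1.symm, hm'.2.1.symm, hm'.2.2.symm⟩
        · refine (hT.left w w' (fun h => hw (Or.inl h))).subset ?_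
          rintro y ⟨hyP, hy⟩
          refine ⟨hyP, fun hy' => hy ?_⟩
          rintro (h | h)
          · exact hy' h
          · obtain ⟨m', _, hm'⟩ := hS' h
            simp at hm'
        · refine (hT.right w w' (fun h => hw (Or.inl h))).subset ?_
          rintro y ⟨hyP, hy⟩
          refine ⟨hyP, fun hy' => hy ?_⟩
          rintro (h | h)
          · exact hy' h
          · obtain ⟨m', _, hm'⟩ := hS' h
            simp at hm'
      · intro U hU hbU
        rw [isOpen_iff] at hU
        have h2 := hU.node z z' x hbU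
        rw [← Nat.cofinite_eq_atTop] at h2
        have h3 : {m | X.t z z' (res x m) ∉ U}.Finite := h2
        refine (h3.image fun m => X.t z z' (res x m)).subset ?_
        rintro s ⟨hs, hsU⟩
        obtain ⟨m, _, rfl⟩ := hS' hs
        exact ⟨m, hsU, rfl⟩

/-- An infinite closed discrete set of nodes: the space is not compact. -/
lemma not_compact : ¬ IsCompact (univ : Set X) := by
  classical
  let s : ℕ → List Bool := fun n => List.replicate n false ++ [true]
  have hs : ∀ n x m, res x m = s n → m = n + 1 ∧ ∀ i ≤ n, x i = decide (i = n) := by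
    intro n x m h
    have hlen : m = n + 1 := by
      rw [← length_res x m, h]
      simp [s]
    refine ⟨hlen, fun i hi => ?_⟩
    subst hlen
    have h1 : (res x (n + 1))[i]? = some (x i) := by
      simp [res, Nat.lt_succ_of_le hi]
    rw [h] at h1
    rcases eq_or_lt_of_le hi with rfl | hlt
    · simp [s] at h1
      simp [← h1]
    · have h2 : (s n)[i]? = some false := by
        simp only [s]
        rw [List.getElem?_append_left (by simpa using hlt)]
        simp [hlt]
      rw [h2] at h1
      simp only [Option.some.injEq] at h1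
      rw [← h1]
      simp [hlt.ne]
  have hthin : ∀ S' ⊆ range fun n => X.t X.o X.o (s n), Thin S' := by
    intro S' hS'
    refine ⟨fun z z' x => ?_, fun z z' => ?_⟩
    · apply Set.Subsingleton.finite
      intro m hm m' hm'
      obtain ⟨n, hn⟩ := hS' hm
      obtain ⟨n', hn'⟩ := hS' hm'
      simp only [X.t.injEq] at hn hn'
      obtain ⟨h1, h2⟩ := hs n x m hn.2.2.symm
      obtain ⟨h3, h4⟩ := hs n' x m' hn'.2.2.symm
      have : n = n' := by
        rcases le_total n n' with h | h
        · have h5 := h2 n le_rfl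
          have h6 := h4 n h
          rw [h5] at h6
          simpa using h6.symm
        · have h5 := h4 n' le_rfl
          have h6 := h2 n' h
          rw [h5] at h6
          have : n' = n := by simpa using h6.symm
          exact this.symm
      omega
    · convert finite_empty
      rw [eq_empty_iff_forall_notMem]
      intro x hx
      obtain ⟨n, hn⟩ := hS' hx
      simp at hn
  have hinj : Function.Injective fun n => X.t X.o X.o (s n) := by
    intro n n' h
    simp only [X.t.injEq, true_and] at h
    have := congrArg List.length h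
    simpa [s] using this
  intro hc
  -- the open sets `complement of the tail`
  let U : ℕ → Set X := fun n => ((fun k => X.t X.o X.o (s k)) '' Ici n)ᶜ
  have hU : ∀ n, IsOpen (U n) := fun n =>
    (hthin _ (image_subset_range _ _)).isClosed.isOpen_compl
  obtain ⟨F, hF⟩ := hc.elim_finite_subcover U hU (by
    intro p _
    rw [mem_iUnion]
    by_cases hp : p ∈ range fun n => X.t X.o X.o (s n)
    · obtain ⟨n, rfl⟩ := hp
      refine ⟨n + 1, ?_⟩
      rintro ⟨k, hk, hkn⟩
      have : k = n := hinj hkn
      rw [this] at hk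
      exact absurd hk (by simp)
    · refine ⟨0, ?_⟩
      rintro ⟨k, _, hk⟩
      exact hp ⟨k, hk⟩)
  let N := F.sup id
  have := hF (mem_univ (X.t X.o X.o (s N)))
  obtain ⟨n, hn, hmem⟩ := mem_iUnion₂.1 this
  exact hmem ⟨N, Finset.le_sup (f := id) hn, rfl⟩

/-! ### The compactification -/

/-- The compact space. -/
abbrev G : Type := OnePoint X

/-- All compact subsets of `G` are closed. -/
lemma isClosed_of_isCompact {K : Set G} (hK : IsCompact K) : IsClosed K := by
  classical
  by_contra hnc
  -- the trace on `X`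
  have hKX : ¬ IsClosed ((fun x : X => (x : G)) ⁻¹' K) := by
    intro hcl
    apply hnc
    rw [← isOpen_compl_iff, OnePoint.isOpen_def]
    refine ⟨fun hinf => ?_, by simpa using hcl.isOpen_compl⟩
    -- `∞ ∉ K`, so `K` is compact in `X`
    have h1 : (fun x : X => (x : G)) '' ((fun x : X => (x : G)) ⁻¹' K) = K := by
      rw [image_preimage_eq_iff]
      intro g hg
      have hg' : g ≠ OnePoint.infty := by
        rintro rfl
        exact hinf hg
      obtain ⟨x, hx⟩ := OnePoint.ne_infty_iff_exists.1 hg'
      exact ⟨x, hx⟩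
    have h2 : IsCompact ((fun x : X => (x : G)) ⁻¹' K) := by
      rw [OnePoint.isOpenEmbedding_coe.isEmbedding.isCompact_iff, h1]
      exact hK
    simpa using h2
  obtain ⟨S, p, hSK, hpK, hinf, hpS, hfan⟩ := exists_fan hKX
  -- every subset of the image of `S` is closed in `K`
  have hclosed : ∀ S' ⊆ S, IsClosed ((fun x : X => (x : G)) '' (insert p S')) := by
    intro S' hS'
    rw [OnePoint.isClosed_image_coe]
    exact hfan S' hS'
  obtain ⟨f, hf⟩ : ∃ f : ℕ → X, Function.Injective f ∧ ∀ n, f n ∈ S :=
    ⟨fun n => (hinf.natEmbedding _ n : X), fun a c h =>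
      (hinf.natEmbedding _).injective (Subtype.ext h), fun n => (hinf.natEmbedding _ n).2⟩
  let U : ℕ → Set G := fun n => ((fun x : X => (x : G)) '' (insert p (f '' Ici n)))ᶜ
  obtain ⟨F, hF⟩ := hK.elim_finite_subcover U (fun n => by
      apply (hclosed _ _).isOpen_compl
      rintro _ ⟨k, _, rfl⟩
      exact hf.2 k) (by
    intro g hg
    rw [mem_iUnion]
    by_cases hp : ∃ n, (f n : G) = g
    · obtain ⟨n, rfl⟩ := hp
      refine ⟨n + 1, ?_⟩
      rintro ⟨x, hx, hxn⟩
      have hxf : x = f n := OnePoint.coe_injective hxn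
      rcases hx with hx | ⟨k, hk, hkx⟩
      · rw [← hx, hxf] at hpK
        exact hpK hg
      · rw [hxf] at hkx
        have : k = n := hf.1 hkx
        rw [this] at hk
        exact absurd hk (by simp)
    · refine ⟨0, ?_⟩
      rintro ⟨x, hx, hxg⟩
      rcases hx with rfl | ⟨k, _, hk⟩
      · rw [← hxg] at hg
        exact hpK hg
      · exact hp ⟨k, by rw [hk]; exact hxg⟩)
  let N := F.sup id
  have hN : (f N : G) ∈ K := hSK (hf.2 N)
  obtain ⟨n, hn, hmem⟩ := mem_iUnion₂.1 (hF hN)
  exact hmem ⟨f N, Or.inr ⟨N, Finset.le_sup (f := id) hn, rfl⟩, rfl⟩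

/-- Any two nonempty open subsets of `G` meet. -/
lemma inter_nonempty_G {U V : Set G} (hU : IsOpen U) (hV : IsOpen V) (hUn : U.Nonempty)
    (hVn : V.Nonempty) : (U ∩ V).Nonempty := by
  have key : ∀ W : Set G, IsOpen W → W.Nonempty →
      IsOpen ((fun x : X => (x : G)) ⁻¹' W) ∧ ((fun x : X => (x : G)) ⁻¹' W).Nonempty := by
    intro W hW hWn
    refine ⟨hW.preimage OnePoint.continuous_coe, ?_⟩
    by_contra hemp
    rw [not_nonempty_iff_eq_empty] at hemp
    obtain ⟨g, hg⟩ := hWn
    have hginf : g = OnePoint.infty := by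
      by_contra hne
      obtain ⟨x, rfl⟩ := OnePoint.ne_infty_iff_exists.1 hne
      have : x ∈ (fun x : X => (x : G)) ⁻¹' W := hg
      rw [hemp] at this
      exact this
    subst hginf
    rw [OnePoint.isOpen_def] at hW
    have h1 := hW.1 hg
    rw [hemp, compl_empty] at h1
    exact not_compact h1
  obtain ⟨hU1, hU2⟩ := key U hU hUn
  obtain ⟨hV1, hV2⟩ := key V hV hVn
  obtain ⟨x, hx⟩ := inter_nonempty hU1 hV1 hU2 hV2
  exact ⟨x, hx⟩

end Q178.CoSober
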